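import Pool.Agent.Helper74.MH.Mach
import Pool.Agent.Helper88.Undec

/-!
Half M1 of Part M (MP_f028d2_al): a two-register machine with undecidable halting problem.
-/

namespace Pool.Agent.Helper88.MH

open Turing Pool.Agent.Helper74.MH
open Nat.Partrec (Code)

/-- Value of a list of digits in base `k`, least significant digit first. -/
def val {Γ : Type} {k : ℕ} (e : Γ ≃ Fin k) : List Γ → ℕ
  | [] => 0
  | a :: l => (e a : ℕ) + k * val e l

section Sim

variable {Γ Λ : Type} [Inhabited Γ] [Inhabited Λ] {k : ℕ} (e : Γ ≃ Fin k)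
  (he : (e default : ℕ) = 0) (hk : 0 < k)

include he in
theorem val_mod (l : List Γ) : val e l % k = (e l.headI : ℕ) := by
  cases l with
  | nil => simp [val, List.headI, he]
  | cons a l =>
    simp only [val, List.headI, Nat.add_mul_mod_self_left]
    exact Nat.mod_eq_of_lt (e a).2

include hk in
theorem val_div (l : List Γ) : val e l / k = val e l.tail := by
  cases l with
  | nil => simp [val]
  | cons a l =>
    simp only [val, List.tail_cons]
    rw [Nat.add_mul_div_left _ _ hk, Nat.div_eq_of_lt (e a).2, zero_add]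

variable {S : Set Λ} (N : TM0.Machine Γ Λ) (M : S → Γ → Option (S × TM0.Stmt Γ)) {nP : ℕ}
  (s : S × Γ ≃ Fin nP)

/-- The instructions of the two-register machine. -/
def op (p : Fin nP) : TOp (Fin nP) k :=
  match M (s.symm p).1 (s.symm p).2 with
  | none => TOp.halt
  | some (q', TM0.Stmt.move Dir.left) => TOp.left (e (s.symm p).2) (fun r => s (q', e.symm r))
  | some (q', TM0.Stmt.move Dir.right) => TOp.right (e (s.symm p).2) (fun r => s (q', e.symm r))
  | some (q', TM0.Stmt.write a') => TOp.jump (s (q', a'))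

/-- The register configuration `c` represents the tape configuration `cfg`. -/
def Repr (c : Fin nP × ℕ × ℕ) (cfg : TM0.Cfg Γ Λ) : Prop :=
  ∃ (Lf : List Γ) (q : S) (a : Γ) (Rt : List Γ), c = (s (q, a), val e Lf, val e Rt) ∧
    cfg.q = q.1 ∧ cfg.Tape = ⟨a, ListBlank.mk Lf, ListBlank.mk Rt⟩

theorem sim_none (hR : TMPass.Restr N M) {c : Fin nP × ℕ × ℕ} {cfg : TM0.Cfg Γ Λ}
    (h : Repr e s c cfg) (hn : TM0.step N cfg = none) : TOp.step (op e M s) hk c = none := by
  obtain ⟨Lf, q, a, Rt, rfl, hq, hT⟩ := h
  obtain ⟨cq, T⟩ := cfg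
  simp only at hq hT
  subst hq hT
  simp only [TM0.step, hR q a] at hn
  cases hM : M q a with
  | none => simp [TOp.step, op, hM]
  | some p => simp [hM] at hn

include he in
theorem sim_some (hR : TMPass.Restr N M) {c : Fin nP × ℕ × ℕ} {cfg cfg' : TM0.Cfg Γ Λ}
    (h : Repr e s c cfg) (hn : TM0.step N cfg = some cfg') :
    ∃ c', TOp.step (op e M s) hk c = some c' ∧ Repr e s c' cfg' := by
  obtain ⟨Lf, q, a, Rt, rfl, hq, hT⟩ := h
  obtain ⟨cq, T⟩ := cfg
  simp only at hq hT
  subst hq hT
  simp only [TM0.step, hR q a] at hn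
  cases hM : M q a with
  | none => simp [hM] at hn
  | some p =>
    obtain ⟨q', st⟩ := p
    simp only [hM, Option.map_some, Option.some.injEq] at hn
    subst hn
    cases st with
    | move d =>
      cases d with
      | left =>
        refine ⟨(s (q', Lf.headI), val e Lf.tail, val e (a :: Rt)), ?_, Lf.tail, q', Lf.headI,
          a :: Rt, rfl, rfl, ?_⟩
        · simp only [TOp.step, op, Equiv.symm_apply_apply, hM, Option.some.injEq, Prod.mk.injEq]
          refine ⟨?_, val_div e hk Lf, ?_⟩
          · have : (⟨val e Lf % k, Nat.mod_lt _ hk⟩ : Fin k) = e Lf.headI :=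
              Fin.ext (val_mod e he Lf)
            rw [this, Equiv.symm_apply_apply]
          · simp only [val]; omega
        · simp only [Tape.move, ListBlank.head_mk, ListBlank.tail_mk, ListBlank.cons_mk]
      | right =>
        refine ⟨(s (q', Rt.headI), val e (a :: Lf), val e Rt.tail), ?_, a :: Lf, q', Rt.headI,
          Rt.tail, rfl, rfl, ?_⟩
        · simp only [TOp.step, op, Equiv.symm_apply_apply, hM, Option.some.injEq, Prod.mk.injEq]
          refine ⟨?_, ?_, val_div e hk Rt⟩
          · have : (⟨val e Rt % k, Nat.mod_lt _ hk⟩ : Fin k) = e Rt.headI :=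
              Fin.ext (val_mod e he Rt)
            rw [this, Equiv.symm_apply_apply]
          · simp only [val]; omega
        · simp only [Tape.move, ListBlank.head_mk, ListBlank.tail_mk, ListBlank.cons_mk]
    | write a' =>
      refine ⟨(s (q', a'), val e Lf, val e Rt), ?_, Lf, q', a', Rt, rfl, rfl, ?_⟩
      · simp only [TOp.step, op, Equiv.symm_apply_apply, hM]
      · simp only [Tape.write]

include he in
theorem halts_iff (hR : TMPass.Restr N M) {c : Fin nP × ℕ × ℕ} {cfg : TM0.Cfg Γ Λ}
    (h : Repr e s c cfg) :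
    TOp.Halts (op e M s) hk c ↔ (StateTransition.eval (TM0.step N) cfg).Dom := by
  rw [Part.dom_iff_mem]
  simp only [StateTransition.mem_eval]
  constructor
  · rintro ⟨c', hc', hn⟩
    induction hc' using Relation.ReflTransGen.head_induction_on generalizing cfg with
    | refl =>
      cases hs : TM0.step N cfg with
      | none => exact ⟨cfg, Relation.ReflTransGen.refl, hs⟩
      | some cfg' =>
        obtain ⟨c', hc', -⟩ := sim_some e he hk N M s hR h hs
        rw [hn] at hc'
        exact absurd hc' (by simp)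
    | head h1 h2 ih =>
      cases hs : TM0.step N cfg with
      | none =>
        rw [sim_none e hk N M s hR h hs] at h1
        exact absurd h1 (by simp)
      | some cfg' =>
        obtain ⟨c', hc', hrep⟩ := sim_some e he hk N M s hR h hs
        rw [h1] at hc'
        rw [Option.some.inj hc'] at ih
        obtain ⟨b, hb, hb'⟩ := ih hrep
        exact ⟨b, Relation.ReflTransGen.head hs hb, hb'⟩
  · rintro ⟨b, hb, hb'⟩
    unfold StateTransition.Reaches at hb
    induction hb using Relation.ReflTransGen.head_induction_on generalizing c with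
    | refl => exact ⟨c, Relation.ReflTransGen.refl, sim_none e hk N M s hR h hb'⟩
    | head h1 h2 ih =>
      obtain ⟨c', hc', hrep⟩ := sim_some e he hk N M s hR h h1
      obtain ⟨d, hd, hd'⟩ := ih hrep
      exact ⟨d, Relation.ReflTransGen.head hc' hd, hd'⟩

include he in
theorem halts_init_iff (hR : TMPass.Restr N M) (hd : (default : Λ) ∈ S) (l : List Γ) :
    TOp.Halts (op e M s) hk (s ((⟨default, hd⟩ : S), l.headI), 0, val e l.tail) ↔
      (TM0.eval N l).Dom := by
  have h : Repr e s (s ((⟨default, hd⟩ : S), l.headI), 0, val e l.tail)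
      (TM0.init l : TM0.Cfg Γ Λ) := by
    refine ⟨[], ⟨default, hd⟩, l.headI, l.tail, rfl, rfl, ?_⟩
    simp [TM0.init, Tape.mk₁, Tape.mk₂, Tape.mk', ListBlank.head_mk, ListBlank.tail_mk]
  rw [halts_iff e he hk N M s hR h]
  rfl

end Sim

/-- The value of the input tape. -/
def RR (k d1 d2 : ℕ) (n : ℕ) : ℕ := d1 + k * Nat.rec 0 (fun _ v => d2 + k * v) n

theorem val_input {Γ : Type} {k : ℕ} (e : Γ ≃ Fin k) (x1 x2 : Γ) (n : ℕ) :
    val e (x1 :: List.replicate n x2) = RR k (e x1) (e x2) n := by
  have h : ∀ n, val e (List.replicate n x2) =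
      (Nat.rec 0 (fun _ v => (e x2 : ℕ) + k * v) n : ℕ) := by
    intro n
    induction n with
    | zero => rfl
    | succ n ih => rw [List.replicate_succ, val, ih]
  rw [val, h]
  rfl

theorem computable_RR (k d1 d2 : ℕ) : Computable (RR k d1 d2) := by
  apply Primrec.to_comp
  have h1 : Primrec (fun n : ℕ => (Nat.rec 0 (fun _ v => d2 + k * v) n : ℕ)) := by
    refine Primrec.nat_rec₁ (f := fun _ v => d2 + k * v) 0 ?_
    have : Primrec (fun p : ℕ × ℕ => d2 + k * p.2) :=
      Primrec.nat_add.comp (Primrec.const d2)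
        (Primrec.nat_mul.comp (Primrec.const k) Primrec.snd)
    exact this
  exact Primrec.nat_add.comp (Primrec.const d1) (Primrec.nat_mul.comp (Primrec.const k) h1)

/-- Half M1 of Part M. -/
theorem partM1 : PartM1 := by
  classical
  obtain ⟨Γ, Λ, iΓ, fΓ, iΛ, N, S, x0, x1, x2, hS, hsup, hN⟩ := Undec.exists_TM0
  obtain ⟨M, hM⟩ := TMPass.exists_restr (S := S) N hsup
  haveI : Fintype S := hS.fintype
  have hk : 0 < Fintype.card Γ := Fintype.card_pos
  let z : Fin (Fintype.card Γ) := ⟨0, hk⟩
  let e : Γ ≃ Fin (Fintype.card Γ) :=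
    (Fintype.equivFin Γ).trans (Equiv.swap (Fintype.equivFin Γ default) z)
  have he : (e default : ℕ) = 0 := by
    have : e default = z := by
      simp only [e, Equiv.trans_apply, Equiv.swap_apply_left]
    rw [this]
  let s : S × Γ ≃ Fin (Fintype.card (S × Γ)) := Fintype.equivFin _
  refine ⟨Fintype.card (S × Γ), Fintype.card Γ, hk, op e M s, s (⟨default, hsup.1⟩, x0),
    RR (Fintype.card Γ) (e x1) (e x2), computable_RR _ _ _, ?_⟩
  intro hc
  apply ComputablePred.halting_problem 0
  have h1 : ∀ n, TOp.Halts (op e M s) hk (s (⟨default, hsup.1⟩, x0), 0,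
      RR (Fintype.card Γ) (e x1) (e x2) n) ↔ (Code.eval (Denumerable.ofNat Code n) 0).Dom := by
    intro n
    rw [← hN n, ← halts_init_iff e he hk N M s hM hsup.1, ← val_input]
    rfl
  have h2 : ComputablePred (fun n : ℕ => (Code.eval (Denumerable.ofNat Code n) 0).Dom) := by
    refine hc.of_eq ?_
    intro n
    exact h1 n
  have h3 : ComputablePred (fun c : Code =>
      (Code.eval (Denumerable.ofNat Code (Encodable.encode c)) 0).Dom) := by
    obtain ⟨hdec, hcomp⟩ := h2
    exact ⟨fun c => hdec _, hcomp.comp Computable.encode⟩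
  refine h3.of_eq ?_
  intro c
  rw [Denumerable.ofNat_encode]

end Pool.Agent.Helper88.MH
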